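import Mathlib

/-!
Monadic second-order logic over graphs, clique-width, and the encoding of graphs as strings.
-/

namespace Pool.Agent.H685R2.Msol

/-- Formulas of monadic second-order logic over graphs (one binary edge relation, quantifiers
over vertices and over sets of vertices). `Formula n m` is the type of formulas whose free
vertex variables are numbered by `Fin n` and whose free set variables are numbered by `Fin m`. -/
inductive Formula : ℕ → ℕ → Type
  /-- the two vertices are equal -/
  | eq {n m : ℕ} (x y : Fin n) : Formula n m
  /-- the two vertices are adjacent -/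
  | adj {n m : ℕ} (x y : Fin n) : Formula n m
  /-- the vertex belongs to the set -/
  | mem {n m : ℕ} (x : Fin n) (X : Fin m) : Formula n m
  /-- negation -/
  | not {n m : ℕ} (φ : Formula n m) : Formula n m
  /-- conjunction -/
  | and {n m : ℕ} (φ ψ : Formula n m) : Formula n m
  /-- there is a vertex (it becomes variable number `0`, the old numbers go up by one) -/
  | exV {n m : ℕ} (φ : Formula (n + 1) m) : Formula n m
  /-- there is a set of vertices (it becomes set variable number `0`, the old numbers go up by
  one) -/
  | exS {n m : ℕ} (φ : Formula n (m + 1)) : Formula n m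

/-- Truth of a formula in a graph, for given values of the free variables. -/
def Sat {V : Type} (G : SimpleGraph V) :
    {n m : ℕ} → Formula n m → (Fin n → V) → (Fin m → Set V) → Prop
  | _, _, .eq x y, v, _ => v x = v y
  | _, _, .adj x y, v, _ => G.Adj (v x) (v y)
  | _, _, .mem x X, v, S => v x ∈ S X
  | _, _, .not φ, v, S => ¬ Sat G φ v S
  | _, _, .and φ ψ, v, S => Sat G φ v S ∧ Sat G ψ v S
  | _, _, .exV φ, v, S => ∃ a : V, Sat G φ (Fin.cons a v) S
  | _, _, .exS φ, v, S => ∃ A : Set V, Sat G φ v (Fin.cons A S)

/-- Sentences: formulas without free variables. -/
abbrev Sentence : Type := Formula 0 0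

/-- The sentence is true in the graph. -/
def Models {V : Type} (G : SimpleGraph V) (φ : Sentence) : Prop :=
  Sat G φ Fin.elim0 Fin.elim0

/-- `k`-expressions. -/
inductive Expr (k : ℕ) : Type
  /-- one vertex with label `i` -/
  | vertex (i : Fin k) : Expr k
  /-- disjoint union -/
  | union (a b : Expr k) : Expr k
  /-- add all edges between vertices labelled `i` and vertices labelled `j`, where `i ≠ j` -/
  | join (i j : Fin k) (hij : i ≠ j) (a : Expr k) : Expr k
  /-- rename label `i` to `j` -/
  | rename (i j : Fin k) (a : Expr k) : Expr k

namespace Expr

variable {k : ℕ}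

/-- the vertex set of the value of a `k`-expression -/
def V : Expr k → Type
  | vertex _ => Unit
  | union a b => a.V ⊕ b.V
  | join _ _ _ a => a.V
  | rename _ _ a => a.V

/-- the labels of the vertices of the value of a `k`-expression -/
def label : (e : Expr k) → e.V → Fin k
  | vertex i, _ => i
  | union a b, v => Sum.elim a.label b.label v
  | join _ _ _ a, v => a.label v
  | rename i j a, v => if a.label v = i then j else a.label v

/-- the graph that is the value of a `k`-expression -/
def graph : (e : Expr k) → SimpleGraph e.V
  | vertex _ => ⊥
  | union a b => a.graph ⊕g b.graph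
  | join i j _ a => a.graph ⊔ SimpleGraph.fromRel (fun u v => a.label u = i ∧ a.label v = j)
  | rename _ _ a => a.graph

end Expr

/-- The clique-width of a graph: the least `k` such that the graph is, up to isomorphism, the
value of a `k`-expression with the labels forgotten. -/
noncomputable def cliqueWidth {V : Type} (G : SimpleGraph V) : ℕ :=
  sInf {k | ∃ e : Expr k, Nonempty (e.graph ≃g G)}

/-- Classes of finite graphs. Every finite graph is isomorphic to one with vertex set `Fin n`. -/
abbrev GraphClass : Type := (n : ℕ) → SimpleGraph (Fin n) → Prop

/-- The class is closed under isomorphism. -/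
def IsoClosed (C : GraphClass) : Prop :=
  ∀ (n : ℕ) (G H : SimpleGraph (Fin n)), Nonempty (G ≃g H) → C n G → C n H

/-- Clique-width is bounded by `O(log n)` on the class: for some constant `c`, every graph in the
class with `n ≥ 2` vertices has clique-width at most `c * log n`. -/
def LogCliqueWidth (C : GraphClass) : Prop :=
  ∃ c : ℝ, ∀ (n : ℕ) (G : SimpleGraph (Fin n)), C n G → 2 ≤ n →
    (cliqueWidth G : ℝ) ≤ c * Real.log n

open Classical in
/-- The string that represents a graph: `n` ones, a zero, and the `n * n` entries of the
adjacency matrix row by row. -/
noncomputable def encode {n : ℕ} (G : SimpleGraph (Fin n)) : List Bool :=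
  List.replicate n true ++ false ::
    (List.finRange n).flatMap fun i => (List.finRange n).map fun j => decide (G.Adj i j)

/-- The problem given by the sentence `φ` has a polynomial time solution on the class `C`: some
Turing machine that runs in polynomial time answers, for every graph of the class, whether `φ` is
true in it. -/
def PolyTimeOn (C : GraphClass) (φ : Sentence) : Prop :=
  ∃ f : List Bool → Bool,
    Nonempty (Turing.TM2ComputableInPolyTime (id : List Bool → List Bool)
      Computability.encodeBool f) ∧
    ∀ (n : ℕ) (G : SimpleGraph (Fin n)), C n G → (f (encode G) = true ↔ Models G φ)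

/-- The square grid with `m * m` vertices: two cells are adjacent if they are in the same row and
in neighbouring columns or in the same column and in neighbouring rows. -/
def grid (m : ℕ) : SimpleGraph (Fin m × Fin m) :=
  SimpleGraph.fromRel fun p q =>
    (p.1 = q.1 ∧ (p.2 : ℕ) + 1 = q.2) ∨ (p.2 = q.2 ∧ (p.1 : ℕ) + 1 = q.1)

/-- The class of all graphs isomorphic to a square grid whose side length is in `M`. -/
def gridClass (M : Set ℕ) : GraphClass :=
  fun _ G => ∃ m ∈ M, Nonempty (grid m ≃g G)

end Pool.Agent.H685R2.Msol
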