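import Pool.Agent.H685R2.Msol.Width

/-!
Every finite graph has a clique-width, and the clique-width of square grids is large.
-/

namespace Pool.Agent.H685R2.Msol

theorem exists_edgeless {n : ℕ} (s : Finset (Fin n)) (hs : s.Nonempty) :
    ∃ e : Expr n, Function.Injective e.label ∧ Set.range e.label = (s : Set (Fin n)) ∧
      e.graph = ⊥ := by
  induction hs using Finset.Nonempty.cons_induction with
  | singleton a =>
      refine ⟨.vertex a, ?_, ?_, rfl⟩
      · intro u v _
        exact Subsingleton.elim (α := Unit) u v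
      · ext x
        constructor
        · rintro ⟨u, rfl⟩
          exact Finset.mem_coe.2 (Finset.mem_singleton_self _)
        · intro hx
          rw [Finset.mem_coe, Finset.mem_singleton] at hx
          exact ⟨(), hx.symm⟩
  | cons a s h hs ih =>
      obtain ⟨e, h1, h2, h3⟩ := ih
      refine ⟨.union (.vertex a) e, ?_, ?_, ?_⟩
      · have hne : ∀ v, e.label v ≠ a := by
          intro v hv
          apply h
          rw [← Finset.mem_coe, ← h2]
          exact ⟨v, hv⟩
        rintro (u | u) (v | v) huv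
        · exact congrArg Sum.inl (Subsingleton.elim (α := Unit) u v)
        · exact absurd (show a = e.label v from huv).symm (hne v)
        · exact absurd (show e.label u = a from huv) (hne u)
        · exact congrArg Sum.inr (h1 huv)
      · ext x
        rw [Finset.coe_cons, ← h2]
        constructor
        · rintro ⟨u | u, rfl⟩
          · left; rfl
          · right; exact ⟨u, rfl⟩
        · rintro (hx | ⟨u, hu⟩)
          · exact ⟨Sum.inl (), hx.symm⟩
          · exact ⟨Sum.inr u, hu⟩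
      · change ((⊥ : SimpleGraph Unit) ⊕g e.graph) = ⊥
        rw [h3]
        ext u v
        rcases u with u | u <;> rcases v with v | v <;> simp

theorem exists_joins {n : ℕ} (hn : 0 < n) (L : List (Fin n × Fin n)) (hL : ∀ p ∈ L, p.1 ≠ p.2) :
    ∃ e : Expr n, Function.Bijective e.label ∧ ∀ u v, e.graph.Adj u v ↔
      ∃ p ∈ L, (e.label u = p.1 ∧ e.label v = p.2) ∨ (e.label v = p.1 ∧ e.label u = p.2) := by
  induction L with
  | nil =>
      obtain ⟨e, h1, h2, h3⟩ := exists_edgeless (Finset.univ : Finset (Fin n))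
        ⟨⟨0, hn⟩, Finset.mem_univ _⟩
      refine ⟨e, ⟨h1, ?_⟩, ?_⟩
      · rw [Finset.coe_univ] at h2
        exact Set.range_eq_univ.1 h2
      · intro u v
        rw [h3]
        simp
  | cons p L ih =>
      obtain ⟨e, h1, h2⟩ := ih (fun q hq => hL q (List.mem_cons_of_mem _ hq))
      have hp := hL p List.mem_cons_self
      refine ⟨.join p.1 p.2 hp e, h1, ?_⟩
      intro u v
      have h3 : (Expr.join p.1 p.2 hp e).graph.Adj u v ↔
          (e.graph ⊔ SimpleGraph.fromRel (fun u v => e.label u = p.1 ∧ e.label v = p.2)).Adj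
            (show e.V from u) (show e.V from v) := Iff.rfl
      rw [h3, SimpleGraph.sup_adj, SimpleGraph.fromRel_adj]
      have h4 := h2 (show e.V from u) (show e.V from v)
      rw [h4]
      change _ ↔ ∃ q ∈ p :: L, (e.label (show e.V from u) = q.1 ∧ e.label (show e.V from v) = q.2) ∨
        (e.label (show e.V from v) = q.1 ∧ e.label (show e.V from u) = q.2)
      rw [List.exists_mem_cons_iff]
      constructor
      · rintro (h | ⟨-, h⟩)
        · exact Or.inr h
        · exact Or.inl h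
      · rintro (h | h)
        · refine Or.inr ⟨?_, h⟩
          intro huv
          rw [huv] at h
          rcases h with h | h
          · exact hp (h.1.symm.trans h.2)
          · exact hp (h.1.symm.trans h.2)
        · exact Or.inl h

theorem exists_expr {n : ℕ} (hn : 0 < n) (G : SimpleGraph (Fin n)) :
    ∃ e : Expr n, Nonempty (e.graph ≃g G) := by
  classical
  obtain ⟨e, h1, h2⟩ := exists_joins hn
    (((Finset.univ : Finset (Fin n × Fin n)).filter fun p => G.Adj p.1 p.2).toList)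
    (fun p hp => by
      rw [Finset.mem_toList, Finset.mem_filter] at hp
      exact hp.2.ne)
  refine ⟨e, ⟨⟨Equiv.ofBijective _ h1, ?_⟩⟩⟩
  intro u v
  rw [h2]
  simp only [Equiv.ofBijective_apply, Finset.mem_toList, Finset.mem_filter, Finset.mem_univ,
    true_and, Prod.exists]
  constructor
  · intro h
    exact ⟨_, _, h, Or.inl ⟨rfl, rfl⟩⟩
  · rintro ⟨a, b, hab, ⟨rfl, rfl⟩ | ⟨rfl, rfl⟩⟩
    · exact hab
    · exact hab.symm

theorem cliqueWidth_iso {V W : Type} {G : SimpleGraph V} {H : SimpleGraph W} (f : G ≃g H) :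
    cliqueWidth G = cliqueWidth H := by
  unfold cliqueWidth
  congr 1
  ext k
  constructor
  · rintro ⟨e, ⟨g⟩⟩
    exact ⟨e, ⟨g.trans f⟩⟩
  · rintro ⟨e, ⟨g⟩⟩
    exact ⟨e, ⟨g.trans f.symm⟩⟩

/-- Every nonempty finite graph has a `k`-expression for some `k`; so its clique-width is
attained. -/
theorem cliqueWidth_spec {V : Type} [Finite V] [Nonempty V] (G : SimpleGraph V) :
    ∃ e : Expr (cliqueWidth G), Nonempty (e.graph ≃g G) := by
  have hf : Fintype V := Fintype.ofFinite V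
  have e := Fintype.equivFin V
  have hn : 0 < Fintype.card V := Fintype.card_pos
  obtain ⟨x, ⟨g⟩⟩ := exists_expr hn (G.map e.toEmbedding)
  have hne : {k | ∃ e : Expr k, Nonempty (e.graph ≃g G)}.Nonempty :=
    ⟨_, x, ⟨g.trans (SimpleGraph.Iso.map e G).symm⟩⟩
  exact Nat.sInf_mem hne

/-- The clique-width of a nonempty finite graph is at most the number of vertices. -/
theorem cliqueWidth_le {n : ℕ} (hn : 0 < n) (G : SimpleGraph (Fin n)) : cliqueWidth G ≤ n :=
  Nat.sInf_le (exists_expr hn G)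

theorem exists_flip {m : ℕ} (P : Fin m → Prop) (h1 : ∃ j, P j) (h2 : ∃ j, ¬ P j) :
    ∃ j j' : Fin m, ((j : ℕ) + 1 = j' ∨ (j' : ℕ) + 1 = j) ∧ P j ∧ ¬ P j' := by
  by_contra hcon
  push Not at hcon
  obtain ⟨a, ha⟩ := h1
  obtain ⟨b, hb⟩ := h2
  have hup : ∀ d : ℕ, ∀ c : Fin m, (c : ℕ) = a + d → P c := by
    intro d
    induction d with
    | zero => intro c hc; have : c = a := Fin.ext (by omega); rwa [this]
    | succ d ih =>
        intro c hc
        have hlt : (a : ℕ) + d < m := by have := c.2; omega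
        exact hcon ⟨a + d, hlt⟩ c (Or.inl (by simp; omega)) (ih _ rfl)
  have hdown : ∀ d : ℕ, ∀ c : Fin m, (c : ℕ) + d = a → P c := by
    intro d
    induction d with
    | zero => intro c hc; have : c = a := Fin.ext (by omega); rwa [this]
    | succ d ih =>
        intro c hc
        have hlt : (c : ℕ) + 1 < m := by have := a.2; omega
        exact hcon ⟨c + 1, hlt⟩ c (Or.inr (by simp)) (ih _ (by simp; omega))
  rcases le_total (a : ℕ) b with h | h
  · exact hb (hup (b - a) b (by omega))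
  · exact hb (hdown (a - b) b (by omega))

theorem grid_adj {m : ℕ} (p q : Fin m × Fin m) : (grid m).Adj p q ↔
    (p.1 = q.1 ∧ ((p.2 : ℕ) + 1 = q.2 ∨ (q.2 : ℕ) + 1 = p.2)) ∨
    (p.2 = q.2 ∧ ((p.1 : ℕ) + 1 = q.1 ∨ (q.1 : ℕ) + 1 = p.1)) := by
  rw [grid, SimpleGraph.fromRel_adj]
  constructor
  · rintro ⟨-, (⟨h1, h2⟩ | ⟨h1, h2⟩) | (⟨h1, h2⟩ | ⟨h1, h2⟩)⟩
    · exact Or.inl ⟨h1, Or.inl h2⟩
    · exact Or.inr ⟨h1, Or.inl h2⟩
    · exact Or.inl ⟨h1.symm, Or.inr h2⟩
    · exact Or.inr ⟨h1.symm, Or.inr h2⟩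
  · rintro (⟨h1, h2 | h2⟩ | ⟨h1, h2 | h2⟩)
    · exact ⟨fun h => by rw [h] at h2; omega, Or.inl (Or.inl ⟨h1, h2⟩)⟩
    · exact ⟨fun h => by rw [h] at h2; omega, Or.inr (Or.inl ⟨h1.symm, h2⟩)⟩
    · exact ⟨fun h => by rw [h] at h2; omega, Or.inl (Or.inr ⟨h1, h2⟩)⟩
    · exact ⟨fun h => by rw [h] at h2; omega, Or.inr (Or.inr ⟨h1.symm, h2⟩)⟩

theorem mixed_rows {m k : ℕ} (A : Set (Fin m × Fin m)) (lab : Fin m × Fin m → Fin k)
    (hA : ∀ u ∈ A, ∀ v ∈ A, lab u = lab v → ∀ w, w ∉ A → ((grid m).Adj u w ↔ (grid m).Adj v w)) :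
    ({i : Fin m | (∃ j, (i, j) ∈ A) ∧ ∃ j, (i, j) ∉ A}).ncard ≤ k * 2 := by
  classical
  have hex : ∀ i : Fin m, ((∃ j, (i, j) ∈ A) ∧ ∃ j, (i, j) ∉ A) →
      ∃ p : Fin m × Fin m, (i, p.1) ∈ A ∧ (i, p.2) ∉ A ∧ (grid m).Adj (i, p.1) (i, p.2) := by
    rintro i ⟨h1, h2⟩
    obtain ⟨j, j', h3, h4, h5⟩ := exists_flip (fun j => (i, j) ∈ A) h1 h2
    refine ⟨(j, j'), h4, h5, ?_⟩
    rw [grid_adj]
    exact Or.inl ⟨rfl, h3⟩
  choose! f hf using hex
  have hinj : Set.InjOn (fun i : Fin m => (lab (i, (f i).1), (⟨(i : ℕ) % 2, Nat.mod_lt _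
      (by norm_num)⟩ : Fin 2))) {i : Fin m | (∃ j, (i, j) ∈ A) ∧ ∃ j, (i, j) ∉ A} := by
    intro i hi i' hi' heq
    obtain ⟨h1, h2, h3⟩ := hf i hi
    obtain ⟨h1', h2', h3'⟩ := hf i' hi'
    have e1 : lab (i, (f i).1) = lab (i', (f i').1) := congrArg Prod.fst heq
    have e2 : (i : ℕ) % 2 = (i' : ℕ) % 2 := by
      have := congrArg (fun x => ((Prod.snd x : Fin 2) : ℕ)) heq
      simpa using this
    have h4 := (hA _ h1 _ h1' e1 _ h2).1 h3
    rw [grid_adj] at h4
    simp only at h4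
    rcases h4 with ⟨h5, -⟩ | ⟨-, h5⟩
    · exact h5.symm
    · omega
  calc ({i : Fin m | (∃ j, (i, j) ∈ A) ∧ ∃ j, (i, j) ∉ A}).ncard
      ≤ (Set.univ : Set (Fin k × Fin 2)).ncard :=
        Set.ncard_le_ncard_of_injOn _ (fun _ _ => Set.mem_univ _) hinj
    _ = k * 2 := by simp [Set.ncard_univ]

/-- The clique-width of the `m × m` grid is at least `m / 6`. -/
theorem le_of_expr_grid {m k : ℕ} (hm : 2 ≤ m) (e : Expr k) (f : e.graph ≃g grid m) :
    m ≤ 6 * k := by
  classical
  by_contra hlt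
  push Not at hlt
  have hmm : 2 * 2 ≤ m * m := Nat.mul_le_mul hm hm
  obtain ⟨A, lab, h1, h2, h3⟩ := exists_thin_set e f ((m * m + 2) / 3) (by omega)
    (by rw [Nat.card_prod, Nat.card_eq_fintype_card, Fintype.card_fin]; omega)
  -- rows and columns
  have hR := mixed_rows A lab h3
  have hC := mixed_rows (Prod.swap ⁻¹' A) (lab ∘ Prod.swap) (by
    intro u hu v hv huv w hw
    have h4 := h3 u.swap hu v.swap hv huv w.swap hw
    have h5 : ∀ x y : Fin m × Fin m, (grid m).Adj x.swap y.swap ↔ (grid m).Adj x y := by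
      intro x y
      rw [grid_adj, grid_adj]
      simp only [Prod.fst_swap, Prod.snd_swap]
      tauto
    rw [h5, h5] at h4
    exact h4)
  set R := {i : Fin m | (∃ j, (i, j) ∈ A) ∧ ∃ j, (i, j) ∉ A} with hRdef
  set C := {i : Fin m | (∃ j, (i, j) ∈ Prod.swap ⁻¹' A) ∧ ∃ j, (i, j) ∉ Prod.swap ⁻¹' A}
    with hCdef
  have huniv : (Set.univ : Set (Fin m)).ncard = m := by simp [Set.ncard_univ]
  obtain ⟨r, hr⟩ : ∃ r, r ∉ R := by
    by_contra hcon
    push Not at hcon
    have : R = Set.univ := Set.eq_univ_of_forall hcon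
    rw [this, huniv] at hR
    omega
  obtain ⟨c, hc⟩ : ∃ c, c ∉ C := by
    by_contra hcon
    push Not at hcon
    have : C = Set.univ := Set.eq_univ_of_forall hcon
    rw [this, huniv] at hC
    omega
  have hrow : ∀ i, i ∉ R → (∀ j, (i, j) ∈ A) ∨ (∀ j, (i, j) ∉ A) := by
    intro i hi
    rw [hRdef, Set.mem_ofPred_eq, not_and_or, not_exists, not_exists] at hi
    rcases hi with hi | hi
    · exact Or.inr hi
    · exact Or.inl fun j => not_not.1 (hi j)
  have hcol : (∀ i, (i, c) ∈ A) ∨ (∀ i, (i, c) ∉ A) := by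
    rw [hCdef, Set.mem_ofPred_eq, not_and_or, not_exists, not_exists] at hc
    rcases hc with hc | hc
    · exact Or.inr hc
    · exact Or.inl fun j => not_not.1 (hc j)
  have hcompl : (m - 2 * k) ≤ Rᶜ.ncard := by
    have := Set.ncard_add_ncard_compl R
    rw [Nat.card_eq_fintype_card, Fintype.card_fin] at this
    omega
  have hprod : ((Rᶜ ×ˢ (Set.univ : Set (Fin m))) : Set (Fin m × Fin m)).ncard =
      Rᶜ.ncard * m := by
    rw [Set.ncard_prod, huniv]
  have hmul : (m - 2 * k) * m ≤ Rᶜ.ncard * m := Nat.mul_le_mul_right m hcompl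
  have hkey : 3 * ((m - 2 * k) * m) ≤ 2 * (m * m) → False := by
    intro h
    have h4 : 3 * (m - 2 * k) * m ≤ 2 * m * m := by nlinarith
    have h5 : 3 * (m - 2 * k) ≤ 2 * m := Nat.le_of_mul_le_mul_right h4 (by omega)
    omega
  have htot := Set.ncard_add_ncard_compl A
  rw [Nat.card_prod, Nat.card_eq_fintype_card, Fintype.card_fin] at htot
  rcases hcol with hcol | hcol
  · have hsub : (Rᶜ ×ˢ (Set.univ : Set (Fin m))) ⊆ A := by
      rintro ⟨i, j⟩ ⟨hi, -⟩
      rcases hrow i hi with h | h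
      · exact h j
      · exact absurd (hcol i) (h c)
    have h4 := Set.ncard_le_ncard hsub
    rw [hprod] at h4
    apply hkey
    omega
  · have hsub : (Rᶜ ×ˢ (Set.univ : Set (Fin m))) ⊆ Aᶜ := by
      rintro ⟨i, j⟩ ⟨hi, -⟩
      rcases hrow i hi with h | h
      · exact absurd (h c) (hcol i)
      · exact h j
    have h4 := Set.ncard_le_ncard hsub
    rw [hprod] at h4
    apply hkey
    omega

theorem le_cliqueWidth_grid {m : ℕ} (hm : 2 ≤ m) : m ≤ 6 * cliqueWidth (grid m) := by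
  have : Nonempty (Fin m × Fin m) := ⟨(⟨0, by omega⟩, ⟨0, by omega⟩)⟩
  obtain ⟨e, ⟨f⟩⟩ := cliqueWidth_spec (grid m)
  exact le_of_expr_grid hm e f

end Pool.Agent.H685R2.Msol
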