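import Pool.Agent.H685R2.Msol.Defs

/-!
Countability of the set of formulas and invariance of truth under isomorphism.
-/

namespace Pool.Agent.H685R2.Msol

/-- formulas without the typing of the variables -/
inductive Raw : Type
  | eq (x y : ℕ) : Raw
  | adj (x y : ℕ) : Raw
  | mem (x X : ℕ) : Raw
  | not (φ : Raw) : Raw
  | and (φ ψ : Raw) : Raw
  | exV (φ : Raw) : Raw
  | exS (φ : Raw) : Raw
  deriving Countable

def Formula.raw : {n m : ℕ} → Formula n m → Raw
  | _, _, .eq x y => .eq x y
  | _, _, .adj x y => .adj x y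
  | _, _, .mem x X => .mem x X
  | _, _, .not φ => .not φ.raw
  | _, _, .and φ ψ => .and φ.raw ψ.raw
  | _, _, .exV φ => .exV φ.raw
  | _, _, .exS φ => .exS φ.raw

theorem Formula.raw_inj {n m : ℕ} (φ ψ : Formula n m) (h : φ.raw = ψ.raw) : φ = ψ := by
  induction φ with
  | eq x y => cases ψ <;> simp [Formula.raw, Fin.ext_iff] at h ⊢; exact h
  | adj x y => cases ψ <;> simp [Formula.raw, Fin.ext_iff] at h ⊢; exact h
  | mem x X => cases ψ <;> simp [Formula.raw, Fin.ext_iff] at h ⊢; exact h
  | not φ ih => cases ψ <;> simp [Formula.raw] at h ⊢; exact ih _ h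
  | and φ φ' ih ih' => cases ψ <;> simp [Formula.raw] at h ⊢; exact ⟨ih _ h.1, ih' _ h.2⟩
  | exV φ ih => cases ψ <;> simp [Formula.raw] at h ⊢; exact ih _ h
  | exS φ ih => cases ψ <;> simp [Formula.raw] at h ⊢; exact ih _ h

instance (n m : ℕ) : Countable (Formula n m) :=
  Function.Injective.countable (f := Formula.raw) fun φ ψ h => Formula.raw_inj φ ψ h

theorem sat_iso {V W : Type} {G : SimpleGraph V} {H : SimpleGraph W} (e : G ≃g H) {n m : ℕ}
    (φ : Formula n m) : ∀ (v : Fin n → V) (S : Fin m → Set V),
      Sat G φ v S ↔ Sat H φ (fun i => e (v i)) (fun i => e '' (S i)) := by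
  induction φ with
  | eq x y => intro v S; simp [Sat]
  | adj x y => intro v S; simp only [Sat]; exact (e.map_adj_iff).symm
  | mem x X => intro v S; simp [Sat]
  | not φ ih => intro v S; simp only [Sat]; rw [ih]
  | and φ ψ ih ih' => intro v S; simp only [Sat]; rw [ih, ih']
  | @exV n m φ ih =>
      intro v S
      simp only [Sat]
      have h : ∀ (a : V), (fun i => e ((Fin.cons a v : Fin (n + 1) → V) i)) =
          Fin.cons (e a) (fun i => e (v i)) := by
        intro a
        funext i
        refine Fin.cases ?_ (fun j => ?_) i <;> simp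
      constructor
      · rintro ⟨a, ha⟩
        exact ⟨e a, by rw [ih, h] at ha; exact ha⟩
      · rintro ⟨b, hb⟩
        refine ⟨e.symm b, ?_⟩
        rw [ih, h]
        simpa using hb
  | @exS n m φ ih =>
      intro v S
      simp only [Sat]
      have h : ∀ (A : Set V), (fun i => e '' ((Fin.cons A S : Fin (m + 1) → Set V) i)) =
          Fin.cons (e '' A) (fun i => e '' (S i)) := by
        intro a
        funext i
        refine Fin.cases ?_ (fun j => ?_) i <;> simp
      constructor
      · rintro ⟨A, hA⟩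
        exact ⟨e '' A, by rw [ih, h] at hA; exact hA⟩
      · rintro ⟨B, hB⟩
        refine ⟨e ⁻¹' B, ?_⟩
        rw [ih, h]
        rw [Set.image_preimage_eq _ e.surjective]
        exact hB

theorem models_iso {V W : Type} {G : SimpleGraph V} {H : SimpleGraph W} (e : G ≃g H)
    (φ : Sentence) : Models G φ ↔ Models H φ := by
  rw [Models, Models, sat_iso e]
  have h1 : (fun i => e ((Fin.elim0 : Fin 0 → V) i)) = Fin.elim0 := funext fun i => i.elim0
  have h2 : (fun i => e '' ((Fin.elim0 : Fin 0 → Set V) i)) = Fin.elim0 :=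
    funext fun i => i.elim0
  rw [h1, h2]

end Pool.Agent.H685R2.Msol
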