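import Mathlib

/-!
Regular languages are decidable in polynomial time.
-/

namespace Pool.Agent.H685R2.Msol

open Turing StateTransition

section

variable {Q : Type} [Fintype Q] (δ : Q → Bool → Q) (q0 : Q) (acc : Q → Bool)

/-- a machine with one stack that simulates a finite automaton -/
def dfaTM : FinTM2 where
  K := Unit
  k₀ := ()
  k₁ := ()
  Γ _ := Bool
  Λ := Unit
  main := ()
  σ := Q × Bool
  initialState := (q0, false)
  m _ := .pop () (fun s o => match o with
      | some a => (δ s.1 a, false)
      | none => (s.1, true))
    (.branch (fun s => s.2) (.push () (fun s => acc s.1) (.load (fun _ => (q0, false)) .halt))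
      (.goto (fun _ => ())))

/-- the configurations of this machine -/
def dcfg (o : Option Unit) (s : Q × Bool) (l : List Bool) : (dfaTM δ q0 acc).Cfg :=
  ⟨o, s, fun _ => l⟩

theorem dcfg_step_nil (q : Q) : (dfaTM δ q0 acc).step (dcfg δ q0 acc (some ()) (q, false) []) =
    some (dcfg δ q0 acc none (q0, false) [acc q]) := by
  refine congrArg some ?_
  refine congrArg (fun S => (⟨none, (q0, false), S⟩ : (dfaTM δ q0 acc).Cfg)) ?_
  funext k
  rfl

theorem dcfg_step_cons (q : Q) (a : Bool) (l : List Bool) :
    (dfaTM δ q0 acc).step (dcfg δ q0 acc (some ()) (q, false) (a :: l)) =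
    some (dcfg δ q0 acc (some ()) (δ q a, false) l) := by
  refine congrArg some ?_
  refine congrArg (fun S => (⟨some (), (δ q a, false), S⟩ : (dfaTM δ q0 acc).Cfg)) ?_
  funext k
  rfl

theorem dfaTM_run (l : List Bool) : ∀ q : Q,
    (flip bind (dfaTM δ q0 acc).step)^[l.length + 1]
      (some (dcfg δ q0 acc (some ()) (q, false) l)) =
      some (dcfg δ q0 acc none (q0, false) [acc (l.foldl δ q)]) := by
  induction l with
  | nil => exact fun q => dcfg_step_nil δ q0 acc q
  | cons a l ih =>
      intro q
      rw [List.length_cons, Function.iterate_succ_apply]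
      have h : flip bind (dfaTM δ q0 acc).step
          (some (dcfg δ q0 acc (some ()) (q, false) (a :: l))) =
          some (dcfg δ q0 acc (some ()) (δ q a, false) l) := dcfg_step_cons δ q0 acc q a l
      rw [h, ih (δ q a)]
      rfl

/-- Acceptance by a finite automaton can be computed in polynomial time. -/
theorem dfa_polyTime :
    Nonempty (TM2ComputableInPolyTime (id : List Bool → List Bool) Computability.encodeBool
      (fun x => acc (x.foldl δ q0))) := by
  refine ⟨{ tm := dfaTM δ q0 acc
            inputAlphabet := Equiv.refl Bool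
            outputAlphabet := Equiv.refl Bool
            time := Polynomial.X + 1
            outputsFun := fun l => ?_ }⟩
  refine ⟨⟨l.length + 1, ?_⟩, ?_⟩
  · have h := dfaTM_run δ q0 acc l q0
    have hl : List.map (Equiv.refl Bool).invFun (id l) = l := List.map_id l
    have h1 : initList (dfaTM δ q0 acc) (List.map (Equiv.refl Bool).invFun (id l)) =
        dcfg δ q0 acc (some ()) (q0, false) l := by
      refine congrArg (fun S => (⟨some (), (q0, false), S⟩ : (dfaTM δ q0 acc).Cfg)) ?_
      funext k
      exact hl
    rw [h1]
    refine h.trans ?_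
    refine congrArg some ?_
    refine congrArg (fun S => (⟨none, (q0, false), S⟩ : (dfaTM δ q0 acc).Cfg)) ?_
    funext k
    rfl
  · simp [Polynomial.eval_add]

end

end Pool.Agent.H685R2.Msol
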