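import Pool.Agent.H685R2.Msol.Defs

/-!
Bounds for the clique-width.
-/

namespace Pool.Agent.H685R2.Msol

namespace Expr

variable {k : ℕ}

instance instFiniteV : (e : Expr k) → Finite e.V
  | vertex _ => inferInstanceAs (Finite Unit)
  | union a b => by
      have := instFiniteV a
      have := instFiniteV b
      exact inferInstanceAs (Finite (a.V ⊕ b.V))
  | join _ _ _ a => instFiniteV a
  | rename _ _ a => instFiniteV a

/-- `A` is a set of vertices such that, for a suitable labelling with `k` labels, two vertices of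
`A` with the same label have the same final label and the same neighbours outside `A`. -/
def Thin {V : Type} (G : SimpleGraph V) (l : V → Fin k) (A : Set V) : Prop :=
  ∃ lab : V → Fin k, ∀ u ∈ A, ∀ v ∈ A, lab u = lab v →
    l u = l v ∧ ∀ w, w ∉ A → (G.Adj u w ↔ G.Adj v w)

theorem thin_univ {V : Type} (G : SimpleGraph V) (l : V → Fin k) : Thin G l Set.univ :=
  ⟨l, fun _ _ _ _ h => ⟨h, fun _ hw => absurd (Set.mem_univ _) hw⟩⟩

theorem thin_inl {V W : Type} (G : SimpleGraph V) (H : SimpleGraph W) (l : V → Fin k)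
    (l' : W → Fin k) (A : Set V) (hA : A.Nonempty) (h : Thin G l A) :
    Thin (G ⊕g H) (fun v => Sum.elim l l' v) (Sum.inl '' A) := by
  obtain ⟨lab, hlab⟩ := h
  obtain ⟨u0, hu0⟩ := hA
  refine ⟨Sum.elim lab (fun _ => lab u0), ?_⟩
  rintro _ ⟨u, hu, rfl⟩ _ ⟨v, hv, rfl⟩ huv
  have huv' : lab u = lab v := huv
  obtain ⟨h3, h4⟩ := hlab u hu v hv huv'
  refine ⟨h3, ?_⟩
  rintro (w | w) hw
  · have hw' : w ∉ A := fun hh => hw ⟨w, hh, rfl⟩
    simpa using h4 w hw'
  · simp

theorem thin_inr {V W : Type} (G : SimpleGraph V) (H : SimpleGraph W) (l : V → Fin k)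
    (l' : W → Fin k) (A : Set W) (hA : A.Nonempty) (h : Thin H l' A) :
    Thin (G ⊕g H) (fun v => Sum.elim l l' v) (Sum.inr '' A) := by
  obtain ⟨lab, hlab⟩ := h
  obtain ⟨u0, hu0⟩ := hA
  refine ⟨Sum.elim (fun _ => lab u0) lab, ?_⟩
  rintro _ ⟨u, hu, rfl⟩ _ ⟨v, hv, rfl⟩ huv
  have huv' : lab u = lab v := huv
  obtain ⟨h3, h4⟩ := hlab u hu v hv huv'
  refine ⟨h3, ?_⟩
  rintro (w | w) hw
  · simp
  · have hw' : w ∉ A := fun hh => hw ⟨w, hh, rfl⟩
    simpa using h4 w hw'

theorem thin_join {V : Type} (G : SimpleGraph V) (l : V → Fin k) (i j : Fin k) (A : Set V)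
    (h : Thin G l A) :
    Thin (G ⊔ SimpleGraph.fromRel (fun u v => l u = i ∧ l v = j)) l A := by
  obtain ⟨lab, hlab⟩ := h
  refine ⟨lab, ?_⟩
  intro u hu v hv huv
  obtain ⟨h3, h4⟩ := hlab u hu v hv huv
  refine ⟨h3, fun w hw => ?_⟩
  have huw : u ≠ w := fun hh => hw (hh ▸ hu)
  have hvw : v ≠ w := fun hh => hw (hh ▸ hv)
  rw [SimpleGraph.sup_adj, SimpleGraph.sup_adj, SimpleGraph.fromRel_adj,
    SimpleGraph.fromRel_adj, h4 w hw, h3]
  tauto

theorem thin_rename {V : Type} (G : SimpleGraph V) (l : V → Fin k) (i j : Fin k) (A : Set V)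
    (h : Thin G l A) :
    Thin G (fun v => if l v = i then j else l v) A := by
  obtain ⟨lab, hlab⟩ := h
  refine ⟨lab, ?_⟩
  intro u hu v hv huv
  obtain ⟨h3, h4⟩ := hlab u hu v hv huv
  exact ⟨by simp only [h3], h4⟩

theorem exists_thin (t : ℕ) (ht : 2 ≤ t) (e : Expr k) (h : t ≤ Nat.card e.V) :
    ∃ A : Set e.V, Thin e.graph e.label A ∧ t ≤ A.ncard ∧ A.ncard + 2 ≤ 2 * t := by
  induction e with
  | vertex i =>
      have : Nat.card (vertex i : Expr k).V = 1 := by
        change Nat.card Unit = 1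
        simp
      omega
  | union a b iha ihb =>
      by_cases ha : t ≤ Nat.card a.V
      · obtain ⟨A, h0, h1, h2⟩ := iha ha
        have hi : Function.Injective (Sum.inl : a.V → a.V ⊕ b.V) := Sum.inl_injective
        have hA : A.Nonempty := by
          rw [Set.nonempty_iff_ne_empty]
          rintro rfl
          simp at h1
          omega
        refine ⟨(Sum.inl : a.V → a.V ⊕ b.V) '' A,
          thin_inl a.graph b.graph a.label b.label A hA h0, ?_, ?_⟩
        · exact le_of_le_of_eq h1 (Set.ncard_image_of_injective A hi).symm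
        · exact le_of_eq_of_le (congrArg (· + 2) (Set.ncard_image_of_injective A hi)) h2
      · by_cases hb : t ≤ Nat.card b.V
        · obtain ⟨A, h0, h1, h2⟩ := ihb hb
          have hi : Function.Injective (Sum.inr : b.V → a.V ⊕ b.V) := Sum.inr_injective
          have hA : A.Nonempty := by
            rw [Set.nonempty_iff_ne_empty]
            rintro rfl
            simp at h1
            omega
          refine ⟨(Sum.inr : b.V → a.V ⊕ b.V) '' A,
            thin_inr a.graph b.graph a.label b.label A hA h0, ?_, ?_⟩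
          · exact le_of_le_of_eq h1 (Set.ncard_image_of_injective A hi).symm
          · exact le_of_eq_of_le (congrArg (· + 2) (Set.ncard_image_of_injective A hi)) h2
        · have hc : Nat.card (union a b).V = Nat.card a.V + Nat.card b.V :=
            Nat.card_sum (α := a.V) (β := b.V)
          refine ⟨Set.univ, thin_univ _ _, ?_, ?_⟩
          · rw [Set.ncard_univ]; exact h
          · rw [Set.ncard_univ]; omega
  | join i j hij a ih =>
      obtain ⟨A, h0, h1, h2⟩ := ih h
      exact ⟨A, thin_join a.graph a.label i j A h0, h1, h2⟩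
  | rename i j a ih =>
      obtain ⟨A, h0, h1, h2⟩ := ih h
      exact ⟨A, thin_rename a.graph a.label i j A h0, h1, h2⟩

end Expr

/-- If a graph is the value of a `k`-expression, it has a set of vertices of about the given size
with at most `k` types of neighbourhoods outside. -/
theorem exists_thin_set {k : ℕ} {V : Type} {G : SimpleGraph V} (e : Expr k) (f : e.graph ≃g G)
    (t : ℕ) (ht : 2 ≤ t) (hV : t ≤ Nat.card V) :
    ∃ (A : Set V) (lab : V → Fin k), t ≤ A.ncard ∧ A.ncard + 2 ≤ 2 * t ∧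
      ∀ u ∈ A, ∀ v ∈ A, lab u = lab v → ∀ w, w ∉ A → (G.Adj u w ↔ G.Adj v w) := by
  rw [← Nat.card_congr f.toEquiv] at hV
  obtain ⟨A, ⟨lab, hlab⟩, h1, h2⟩ := Expr.exists_thin t ht e hV
  refine ⟨f '' A, lab ∘ f.symm, ?_, ?_, ?_⟩
  · rwa [Set.ncard_image_of_injective _ f.injective]
  · rwa [Set.ncard_image_of_injective _ f.injective]
  · rintro _ ⟨u, hu, rfl⟩ _ ⟨v, hv, rfl⟩ huv w hw
    have h3 : lab u = lab v := by simpa using huv
    have h4 := (hlab u hu v hv h3).2 (f.symm w) (fun hh => hw ⟨_, hh, by simp⟩)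
    have h5 : ∀ x, G.Adj (f x) w ↔ e.graph.Adj x (f.symm w) := by
      intro x
      rw [← f.map_adj_iff]
      simp
    rw [h5, h5]
    exact h4

end Pool.Agent.H685R2.Msol
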